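import Mathlib

namespace Pool.Agent.Results.MP_e7c87c_co.Negative

open Finset Matrix

/-- the feasible set: positive definite (hence symmetric), unit diagonal, `x` on the edges -/
def Feas {V : Type} (G : SimpleGraph V) (x : ℝ) (M : Matrix V V ℝ) : Prop :=
  M.PosDef ∧ (∀ v, M v v = 1) ∧ ∀ u v, G.Adj u v → M u v = x

lemma det_le_exp {V : Type} [Fintype V] [DecidableEq V] (A : Matrix V V ℝ) (h : A.PosSemidef) :
    A.det ≤ Real.exp (A.trace - Fintype.card V) := by
  rw [h.1.det_eq_prod_eigenvalues, h.1.trace_eq_sum_eigenvalues]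
  simp only [RCLike.ofReal_real_eq_id, id]
  have : (∑ i, h.1.eigenvalues i) - Fintype.card V = ∑ i, (h.1.eigenvalues i - 1) := by
    simp [sum_sub_distrib]
  rw [this, Real.exp_sum]
  refine prod_le_prod (fun i _ => h.eigenvalues_nonneg i) fun i _ => ?_
  have := Real.add_one_le_exp (h.1.eigenvalues i - 1)
  linarith

lemma exists_max {V : Type} [Fintype V] [DecidableEq V] (G : SimpleGraph V) (x : ℝ)
    (M0 : Matrix V V ℝ) (h0 : Feas G x M0) :
    ∃ M, Feas G x M ∧ ∀ M', Feas G x M' → M'.det ≤ M.det := by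
  set K : Set (Matrix V V ℝ) :=
    {M | M.PosSemidef ∧ (∀ v, M v v = 1) ∧ ∀ u v, G.Adj u v → M u v = x} with hK
  have ce : ∀ u v, Continuous fun M : Matrix V V ℝ => M u v := fun u v =>
    (continuous_apply v).comp (continuous_apply u)
  have hc : IsClosed K := by
    have : K = {M | Mᴴ = M} ∩ ((⋂ y : V → ℝ, {M | 0 ≤ star y ⬝ᵥ (M *ᵥ y)}) ∩
        ((⋂ v, {M | M v v = 1}) ∩ ⋂ u, ⋂ v, ⋂ _ : G.Adj u v, {M | M u v = x})) := by
      ext M
      simp only [hK, posSemidef_iff_dotProduct_mulVec, Set.mem_ofPred_eq, Set.mem_inter_iff,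
        Set.mem_iInter, IsHermitian, and_assoc]
    rw [this]
    refine (isClosed_eq continuous_id.matrix_conjTranspose continuous_id).inter
      ((isClosed_iInter fun y => isClosed_le continuous_const ?_).inter
      ((isClosed_iInter fun v => isClosed_eq (ce v v) continuous_const).inter
      (isClosed_iInter fun u => isClosed_iInter fun v => isClosed_iInter fun _ =>
        isClosed_eq (ce u v) continuous_const)))
    exact continuous_const.dotProduct (continuous_id.matrix_mulVec continuous_const)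
  have hb : K ⊆ Set.pi Set.univ fun _ => Set.pi Set.univ fun _ => Set.Icc (-1 : ℝ) 1 := by
    rintro M ⟨h1, h2, -⟩ u - v -
    have s : M v u = M u v := by simpa using h1.1.apply u v
    have a := h1.dotProduct_mulVec_nonneg (Pi.single u 1 + Pi.single v 1)
    have b := h1.dotProduct_mulVec_nonneg (Pi.single u 1 - Pi.single v 1)
    simp [mulVec_add, mulVec_sub, h2, s] at a b
    constructor <;> linarith
  have hk : IsCompact K :=
    (isCompact_univ_pi fun _ => isCompact_univ_pi fun _ => isCompact_Icc).of_isClosed_subset hc hb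
  obtain ⟨M, hM, hmax⟩ := hk.exists_isMaxOn ⟨M0, h0.1.posSemidef, h0.2⟩
    (continuous_id.matrix_det).continuousOn
  have hm : ∀ M', Feas G x M' → M'.det ≤ M.det := fun M' h => hmax ⟨h.1.posSemidef, h.2⟩
  exact ⟨M, ⟨hM.1.posDef_iff_det_ne_zero.2 (h0.1.det_pos.trans_le (hm M0 h0)).ne', hM.2⟩, hm⟩

abbrev W (m : ℕ) := Fin 4 ⊕ (Fin m × Bool)

def nb (t : Bool) (s : Fin 4) : Bool := if t then s != 0 else (s == 0 || s == 3)

def GG (m : ℕ) : SimpleGraph (W m) where
  Adj
    | .inl s, .inl s' => (s.1 + 2) % 4 = s'.1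
    | .inl s, .inr h => nb h.2 s = true
    | .inr h, .inl s => nb h.2 s = true
    | .inr _, .inr _ => False
  symm := ⟨by
    rintro (s | h) (s' | h') a
    · simp only at a ⊢; omega
    · exact a
    · exact a
    · exact a⟩
  loopless := ⟨by
    rintro (s | h) a
    · simp only at a; omega
    · exact a⟩

noncomputable def BS : Matrix (Fin 4) (Fin 4) ℝ :=
  !![6051/2500, -1293/5000, 6617/10000, -11691/5000; 0, 609/400, -12013/10000, 2117/10000; 0, 0, 2607/2500, -1627/5000; 0, 0, 0, 9791/10000]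
noncomputable def rr (t : Bool) : Fin 4 → ℝ :=
  if t then ![0, -8309/100000, -1203/100000, -4447/50000] else ![-5319/100000, 0, 0, -5319/100000]
noncomputable def ww (t : Bool) : ℝ := if t then 504623/500000 else 1005333/1000000
noncomputable def LL : Matrix (Fin 4) (Fin 4) ℝ :=
  !![1, 0, 0, 0; -3/50, 1, 0, 0; 1/10, 1840/2491, 1, 0; 89/100, 767/4982, 12723/44474, 1]
noncomputable def dd : Fin 4 → ℝ := ![1, 2491/2500, 22237/49820, 262849/1778960]
noncomputable def gg (t : Bool) : Fin 4 → ℝ :=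
  if t then ![29589/396380, 10353335/98738258, 30334185/881430206, 1755/19819]
  else ![1/10, 3835/470799, 21205/1400931, 10/189]
noncomputable def ee (t : Bool) : ℝ := if t then 19458/19819 else 187/189

noncomputable def BB (m : ℕ) : Matrix (W m) (W m) ℝ :=
  fromBlocks BS 0 (of fun h s => rr h.2 s) (diagonal fun h => ww h.2)

noncomputable def AA (m : ℕ) : Matrix (W m) (W m) ℝ :=
  fromBlocks LL 0 (of fun h s => gg h.2 s) 1

noncomputable def M0 (m : ℕ) : Matrix (W m) (W m) ℝ :=
  AA m * diagonal (Sum.elim dd fun h => ee h.2) * (AA m)ᴴ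

lemma det_BS : BS.det = 6051/2500 * (609/400) * (2607/2500) * (9791/10000) := by
  simp [BS, det_succ_row_zero, Fin.sum_univ_succ, Fin.succAbove]
  norm_num

lemma det_LL : LL.det = 1 := by
  simp [LL, det_succ_row_zero, Fin.sum_univ_succ, Fin.succAbove]

lemma det_BB (m : ℕ) : (BB m).det = BS.det * (ww true * ww false) ^ m := by
  rw [BB, det_fromBlocks_zero₁₂, det_diagonal, Fintype.prod_prod_type]
  simp

lemma det_M0 (m : ℕ) : (M0 m).det = 262849/4000000 * (ee true * ee false) ^ m := by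
  rw [M0, det_mul, det_mul, det_conjTranspose, AA, det_fromBlocks_zero₁₂, det_LL, det_diagonal,
    Fintype.prod_sum_type, Fintype.prod_prod_type]
  simp [dd, Fin.prod_univ_succ]
  norm_num

lemma M0_apply (m : ℕ) (u v : W m) : M0 m u v =
    ∑ k, AA m u (.inl k) * dd k * AA m v (.inl k) +
      ∑ h, AA m u (.inr h) * ee h.2 * AA m v (.inr h) := by
  rw [M0, mul_apply, Fintype.sum_sum_type]
  simp [mul_diagonal]

lemma feas0 (m : ℕ) : Feas (GG m) (1 / 10) (M0 m) := by
  refine ⟨?_, ?_, ?_⟩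
  · have h : (M0 m).PosSemidef := by
      refine PosSemidef.mul_mul_conjTranspose_same (PosSemidef.diagonal ?_) _
      rintro (s | ⟨i, t⟩)
      · fin_cases s <;> simp [dd] <;> norm_num
      · cases t <;> simp [ee] <;> norm_num
    refine h.posDef_iff_det_ne_zero.2 ?_
    rw [det_M0]
    simp only [ee]
    positivity
  · rintro (s | ⟨i, t⟩)
    · fin_cases s <;> simp [M0_apply, AA, LL, dd, Fin.sum_univ_succ] <;> norm_num
    · cases t <;> simp [M0_apply, AA, gg, ee, dd, Fin.sum_univ_succ, one_apply] <;> norm_num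
  · rintro (s | ⟨i, t⟩) (s' | ⟨i', t'⟩) a
    · fin_cases s <;> fin_cases s' <;> simp [GG] at a <;>
        simp [M0_apply, AA, LL, dd, Fin.sum_univ_succ] <;> norm_num
    · fin_cases s <;> cases t' <;> simp [GG, nb] at a <;>
        simp [M0_apply, AA, LL, gg, dd, Fin.sum_univ_succ] <;> norm_num
    · fin_cases s' <;> cases t <;> simp [GG, nb] at a <;>
        simp [M0_apply, AA, LL, gg, dd, Fin.sum_univ_succ] <;> norm_num
    · exact a.elim

lemma tr_le (m : ℕ) (hm : m = 2000) (M : Matrix (W m) (W m) ℝ) (h : Feas (GG m) (1 / 10) M)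
    (hn : ∀ u v, 0 ≤ M u v) : (BB m * M * (BB m)ᴴ).trace ≤ 4004 - 55 / 1000 := by
  obtain ⟨h1, h2, h3⟩ := h
  have sy : ∀ u v, M v u = M u v := fun u v => by simpa using h1.1.apply u v
  have e02 : M (.inl 0) (.inl 2) = 1 / 10 := h3 _ _ (by simp [GG])
  have e13 : M (.inl 1) (.inl 3) = 1 / 10 := h3 _ _ (by simp [GG])
  set q : Bool → ℝ := fun t => ∑ s, ∑ s', rr t s * M (.inl s) (.inl s') * rr t s' +
    (2 * ww t * (1 / 10) * ∑ s, rr t s + ww t * ww t) with hq
  have hv : ∀ h : Fin m × Bool, (BB m * M * (BB m)ᴴ) (.inr h) (.inr h) = q h.2 := by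
    rintro ⟨i, t⟩
    have a : ∀ s, nb t s = true → M (.inr (i, t)) (.inl s) = 1 / 10 := fun s k => h3 _ _ k
    have b : ∀ s, nb t s = true → M (.inl s) (.inr (i, t)) = 1 / 10 := fun s k => h3 _ _ k
    simp only [mul_apply, Fintype.sum_sum_type, BB, conjTranspose_apply, star_trivial,
      fromBlocks_apply₂₁, fromBlocks_apply₂₂, of_apply, diagonal_apply, ite_mul, zero_mul,
      mul_ite, mul_zero, sum_ite_eq, mem_univ, if_true, h2, hq, Fin.sum_univ_four]
    cases t
    · rw [a 0 rfl, a 3 rfl, b 0 rfl, b 3 rfl]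
      simp [rr]
      ring
    · rw [a 1 rfl, a 2 rfl, a 3 rfl, b 1 rfl, b 2 rfl, b 3 rfl]
      simp [rr]
      ring
  have hs : ∀ s : Fin 4, (BB m * M * (BB m)ᴴ) (.inl s) (.inl s) =
      ∑ k, (∑ j, BS s j * M (.inl j) (.inl k)) * BS s k := by
    intro s
    simp [mul_apply, Fintype.sum_sum_type, BB]
  rw [trace, Fintype.sum_sum_type]
  simp only [diag_apply, hv, hs]
  rw [Fintype.sum_prod_type]
  simp only [Fintype.sum_bool, sum_const, card_univ, Fintype.card_fin, nsmul_eq_mul, hq,
    Fin.sum_univ_four, h2, sy (.inl 0) (.inl 1), sy (.inl 0) (.inl 2), sy (.inl 0) (.inl 3),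
    sy (.inl 1) (.inl 2), sy (.inl 1) (.inl 3), sy (.inl 2) (.inl 3), e02, e13]
  have n1 := hn (.inl 0) (.inl 1)
  have n2 := hn (.inl 0) (.inl 3)
  have n3 := hn (.inl 1) (.inl 2)
  have n4 := hn (.inl 2) (.inl 3)
  have c : (m : ℝ) = 2000 := by rw [hm]; norm_num
  rw [c]
  simp [BS, rr, ww]
  linarith

lemma conn (m : ℕ) (i : Fin m) : (GG m).Connected := by
  have r3 : ∀ h : Fin m × Bool, (GG m).Reachable (.inr h) (.inl 3) := fun ⟨j, t⟩ =>
    SimpleGraph.Adj.reachable (by cases t <;> rfl)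
  have key : ∀ v : W m, (GG m).Reachable v (.inl 3) := by
    rintro (s | h)
    · by_cases e : s = 0
      · have : (GG m).Adj (.inl s) (.inr (i, false)) := by subst e; rfl
        exact this.reachable.trans (r3 _)
      · have : (GG m).Adj (.inl s) (.inr (i, true)) := by simpa [GG, nb] using e
        exact this.reachable.trans (r3 _)
    · exact r3 h
  exact ⟨fun x y => (key x).trans (key y).symm⟩

theorem result : ∃ (V : Type) (_ : Fintype V) (_ : DecidableEq V) (G : SimpleGraph V) (x : ℝ),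
    G.Connected ∧ 0 < x ∧ x < 1 ∧ ∃ M : Matrix V V ℝ, Feas G x M ∧
      (∀ M', Feas G x M' → M'.det ≤ M.det) ∧ ∃ u v, M u v < 0 := by
  obtain ⟨m, hm⟩ : ∃ m : ℕ, m = 2000 := ⟨_, rfl⟩
  obtain ⟨M, hM, hmax⟩ := exists_max _ _ _ (feas0 m)
  refine ⟨W m, inferInstance, inferInstance, GG m, 1 / 10, conn m ⟨0, by omega⟩, by norm_num,
    by norm_num, M, hM, hmax, ?_⟩
  by_contra hn
  push Not at hn
  have h1 := det_le_exp _ (hM.1.posSemidef.mul_mul_conjTranspose_same (BB m))
  have h2 := tr_le m hm M hM hn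
  have c : (Fintype.card (W m) : ℝ) = 4004 := by simp [hm]
  have h3 : Real.exp ((BB m * M * (BB m)ᴴ).trace - Fintype.card (W m)) ≤ Real.exp (-(55 / 1000)) :=
    Real.exp_le_exp.2 (by linarith)
  have h4 : Real.exp (-(55 / 1000)) * (55 / 1000 + 1) ≤ 1 := by
    have := mul_le_mul_of_nonneg_left (Real.add_one_le_exp (55 / 1000))
      (Real.exp_pos (-(55 / 1000))).le
    rwa [← Real.exp_add, neg_add_cancel, Real.exp_zero] at this
  have h5 := mul_le_mul_of_nonneg_left (hmax _ (feas0 m)) (mul_self_nonneg (BB m).det)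
  rw [det_mul, det_mul, det_conjTranspose, star_trivial] at h1
  have h6 : (BB m).det * (BB m).det * (M0 m).det = BS.det * BS.det * (262849/4000000) *
      (1 + (ww true * ww false * (ww true * ww false) * (ee true * ee false) - 1)) ^ m := by
    rw [det_BB, det_M0, add_sub_cancel]
    simp only [mul_pow]
    ring
  have h7 := one_add_mul_le_pow (a := ww true * ww false * (ww true * ww false) *
    (ee true * ee false) - 1) (by simp only [ww, ee]; norm_num) m
  generalize (1 + (ww true * ww false * (ww true * ww false) * (ee true * ee false) - 1)) ^ m = P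
    at h6 h7
  have c' : (m : ℝ) = 2000 := by rw [hm]; norm_num
  rw [c'] at h7
  rw [det_BS] at h6
  simp only [ww, ee] at h7
  have h8 : (BB m).det * (BB m).det * M.det = (BB m).det * M.det * (BB m).det := by ring
  norm_num at h6 h7
  linarith

end Pool.Agent.Results.MP_e7c87c_co.Negative
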